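import Mathlib
import Pool.Agent.Helper28.SG.Hopf

set_option autoImplicit false
open MeasureTheory

namespace Pool.Agent.Results.MP_19c155_gt.SevenSphereGap

section
variable {E : Type} [NormedAddCommGroup E] [InnerProductSpace ℝ E]

/-- `X` restricts to a smooth tangent field of constant length `r` on the unit sphere of `E` -/
def IsField (r : ℝ) (X : E → E) : Prop :=
  ContDiff ℝ ((⊤ : ℕ∞) : WithTop ℕ∞) X ∧
    ∀ x ∈ Metric.sphere (0 : E) 1, inner ℝ x (X x) = 0 ∧ ‖X x‖ = r

/-- the orthogonal projection onto the tangent space `x^⊥` (for a unit vector `x`) -/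
noncomputable def proj (x : E) : E →L[ℝ] E := 1 - (innerSL ℝ x).smulRight x

/-- the covariant derivative of the field at `x`: the ambient derivative composed on both sides with
the orthogonal projection onto the tangent space `x^⊥` (so it is `0` on the line of `x`) -/
noncomputable def nab (X : E → E) (x : E) : E →L[ℝ] E := proj x ∘L fderiv ℝ X x ∘L proj x

/-- `1 + Tᵗ T` -/
noncomputable def gram [CompleteSpace E] (T : E →L[ℝ] E) : E →L[ℝ] E :=
  1 + ContinuousLinearMap.adjoint T ∘L T

/-- the volume density `sqrt (det (1 + (∇X)^t ∇X))` -/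
noncomputable def dens [CompleteSpace E] (X : E → E) (x : E) : ℝ :=
  Real.sqrt (LinearMap.det ((gram (nab X x) : E →L[ℝ] E) : E →ₗ[ℝ] E))

variable [FiniteDimensional ℝ E] [MeasurableSpace E] [BorelSpace E]

/-- the surface measure of the unit sphere of `E` -/
noncomputable def surf (E : Type) [NormedAddCommGroup E] [InnerProductSpace ℝ E]
    [FiniteDimensional ℝ E] [MeasurableSpace E] [BorelSpace E] :
    Measure (Metric.sphere (0 : E) 1) := (volume : Measure E).toSphere

/-- the volume of the field: the integral of the density over the unit sphere -/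
noncomputable def volumeOf [CompleteSpace E] (X : E → E) : ℝ :=
  ∫ x : Metric.sphere (0 : E) 1, dens X x ∂(surf E)

end

/-- the ambient Euclidean space of `S^{2m+1}` -/
abbrev Amb (m : ℕ) : Type := EuclideanSpace ℝ (Fin (2 * m + 2))

/-- the total volume of `S^{2m+1}` -/
noncomputable def sphereVol (m : ℕ) : ℝ := (surf (Amb m) Set.univ).toReal

/-- `𝒱(m,r)`: the infimum of the volumes of the smooth fields of constant length `r` -/
noncomputable def infVol (m : ℕ) (r : ℝ) : ℝ :=
  sInf {v : ℝ | ∃ X : Amb m → Amb m, IsField r X ∧ v = volumeOf X}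

/-- `c(m,r)` -/
noncomputable def c (m : ℕ) (r : ℝ) : ℝ :=
  ∑ j ∈ Finset.range (m + 1),
    ((m.choose j : ℝ)) ^ 2 / (((2 * m).choose (2 * j) : ℕ) : ℝ) * r ^ (2 * j)

/-- On `S^7` and for every `r > 0` the general lower bound `c(3,r) vol(S^7)` is not the infimum. -/
theorem result : ∀ r : ℝ, 0 < r → c 3 r * sphereVol 3 < infVol 3 r := by
  intro r hr
  obtain ⟨ε, hε, hgap⟩ := Pool.Agent.Helper28.gap_X r hr
  have hvol := Pool.Agent.Helper28.vol8_pos
  have hc : c 3 r = Pool.Agent.Helper28.c3 r := by
    unfold c Pool.Agent.Helper28.c3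
    simp only [Finset.sum_range_succ, Finset.sum_range_zero]
    norm_num [Nat.choose]
    ring
  have h1 : (c 3 r + ε) * sphereVol 3 ≤ infVol 3 r := by
    refine le_csInf ?_ ?_
    · exact ⟨_, Pool.Agent.Helper28.hopf r, ⟨Pool.Agent.Helper28.hopf_cd r, fun x hx =>
        ⟨Pool.Agent.Helper28.hopf_inner r x,
          Pool.Agent.Helper28.hopf_norm r hr x (by simpa using hx)⟩⟩, rfl⟩
    · rintro v ⟨X, ⟨hX, hX2⟩, rfl⟩
      rw [hc]
      exact (hgap X hX hX2).le
  have h2 : c 3 r * sphereVol 3 < (c 3 r + ε) * sphereVol 3 :=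
    mul_lt_mul_of_pos_right (by linarith) hvol
  exact h2.trans_le h1

end Pool.Agent.Results.MP_19c155_gt.SevenSphereGap
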